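import Pool.Agent.RobberConfined.Forced

/-!
# Robber strategies confined to a forced-win subgraph (MP_03a3ac_co, Q1 and Q2)

The robber locating game (with no-backtrack).  `H` is the graph with vertices `0, ..., 7` and the
11 edges 01, 05, 07, 12, 13, 15, 16, 24, 26, 34, 35; `G₀` is `H` with one more vertex `8`, adjacent
to `2` and `6`.  Every graph containing `H` is non-locatable (`forced`), but in `G₀` the cop has a
strategy which locates, within 9 rounds, every robber who stays in `0, ..., 7` (`gStart`); every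
copy of `H` in `G₀` has these vertices (`copy_ne`).  So Q1 and Q2 have a negative answer.
-/

set_option autoImplicit false

namespace Pool.Agent.Results.MP_03a3ac_co.RobberMustLeave

open SimpleGraph Pool.Agent.RobberConfined

universe u

section Cop

variable {V : Type*} {G : SimpleGraph V}

/-- `Good G S n X Z`: one strategy of the cop locates within `n + 1` rounds every robber who
starts in `Z` and stays in `S`, when all possible starting positions are those in `X`. -/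
def Good (G : SimpleGraph V) (S : Set V) (n : ℕ) (X Z : Set V) : Prop :=
  ∃ σ : List ℕ∞ → V, ∀ x : ℕ → V, x 0 ∈ Z → (∀ t, x t ∈ S) → Legal G σ x n →
    ∃ t ≤ n, ∀ y : ℕ → V, y 0 ∈ X → Legal G σ y t →
      answers G σ y (t + 1) = answers G σ x (t + 1) → y t = x t

theorem Good.mono {S : Set V} {n m : ℕ} {X Z : Set V} (h : Good G S n X Z) (hnm : n ≤ m) :
    Good G S m X Z := by
  obtain ⟨σ, hσ⟩ := h
  refine ⟨σ, fun x hx hS hl => ?_⟩
  obtain ⟨t, ht, h⟩ := hσ x hx hS (fun s hs => hl s (by omega))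
  exact ⟨t, by omega, h⟩

theorem answers_cons (σ : List ℕ∞ → V) (x : ℕ → V) (t : ℕ) :
    answers G σ x (t + 1) = G.edist (x 0) (σ []) ::
      answers G (fun L => σ (G.edist (x 0) (σ []) :: L)) (fun s => x (s + 1)) t := by
  induction t with
  | zero => simp [answers]
  | succ t ih =>
    rw [answers, ih]
    simp only [answers, List.cons_append]

theorem legal_tail {σ : List ℕ∞ → V} {x : ℕ → V} {n : ℕ} (h : Legal G σ x (n + 1)) :
    Legal G (fun L => σ (G.edist (x 0) (σ []) :: L)) (fun s => x (s + 1)) n := by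
  intro s hs
  have h1 := h (s + 1) (by omega)
  unfold probe at h1 ⊢
  rw [answers_cons] at h1
  exact h1

theorem good_step {S : Set V} {n : ℕ} {X Z : Set V} (p : V)
    (h : ∀ r : ℕ∞, (∃ z ∈ Z, G.edist z p = r) →
      (∀ y ∈ X, ∀ z ∈ Z, G.edist y p = r → G.edist z p = r → y = z) ∨
      ∃ X' Z' : Set V, Good G S n X' Z' ∧
        (∀ y ∈ X, G.edist y p = r → ∀ w, w ≠ p → (w = y ∨ G.Adj y w) → w ∈ X') ∧
        (∀ y ∈ Z, G.edist y p = r → ∀ w ∈ S, w ≠ p → (w = y ∨ G.Adj y w) → w ∈ Z')) :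
    Good G S (n + 1) X Z := by
  classical
  have hch : ∀ r : ℕ∞, ∃ τ : List ℕ∞ → V, (∃ z ∈ Z, G.edist z p = r) →
      (∀ y ∈ X, ∀ z ∈ Z, G.edist y p = r → G.edist z p = r → y = z) ∨
      ∃ X' Z' : Set V, (∀ x : ℕ → V, x 0 ∈ Z' → (∀ t, x t ∈ S) → Legal G τ x n →
        ∃ t ≤ n, ∀ y : ℕ → V, y 0 ∈ X' → Legal G τ y t →
          answers G τ y (t + 1) = answers G τ x (t + 1) → y t = x t) ∧
        (∀ y ∈ X, G.edist y p = r → ∀ w, w ≠ p → (w = y ∨ G.Adj y w) → w ∈ X') ∧
        (∀ y ∈ Z, G.edist y p = r → ∀ w ∈ S, w ≠ p → (w = y ∨ G.Adj y w) → w ∈ Z') := by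
    intro r
    by_cases hr : ∃ z ∈ Z, G.edist z p = r
    · rcases h r hr with h1 | ⟨X', Z', ⟨τ, hτ⟩, hX, hZ⟩
      · exact ⟨fun _ => p, fun _ => Or.inl h1⟩
      · exact ⟨τ, fun _ => Or.inr ⟨X', Z', hτ, hX, hZ⟩⟩
    · exact ⟨fun _ => p, fun h => absurd h hr⟩
  choose τ hτ using hch
  refine ⟨fun L => match L with
    | [] => p
    | r :: L => τ r L, ?_⟩
  set σ : List ℕ∞ → V := fun L => match L with
    | [] => p
    | r :: L => τ r L with hσ
  have hσ0 : σ [] = p := rfl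
  have hσ1 : ∀ r, (fun L => σ (r :: L)) = τ r := fun r => rfl
  intro x hx0 hxS hxl
  have hprobe : x 1 ≠ p ∧ (x 1 = x 0 ∨ G.Adj (x 0) (x 1)) := by
    have := hxl 0 (by omega)
    exact ⟨this.2, this.1⟩
  rcases hτ (G.edist (x 0) p) ⟨x 0, hx0, rfl⟩ with h1 | ⟨X', Z', hgood, hX, hZ⟩
  · refine ⟨0, by omega, fun y hy0 _ hans => ?_⟩
    have h2 : G.edist (y 0) p = G.edist (x 0) p := by
      simpa [answers, hσ0] using hans
    exact h1 _ hy0 _ hx0 h2 rfl
  · have hxt := legal_tail hxl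
    rw [hσ0, hσ1] at hxt
    obtain ⟨t, ht, hloc⟩ := hgood (fun s => x (s + 1))
      (hZ _ hx0 rfl _ (hxS 1) hprobe.1 hprobe.2) (fun s => hxS (s + 1)) hxt
    refine ⟨t + 1, by omega, fun y hy0 hyl hans => ?_⟩
    rw [answers_cons σ y, answers_cons σ x, hσ0] at hans
    obtain ⟨h2, h3⟩ := List.cons.inj hans
    rw [hσ1, hσ1, h2] at h3
    have hyt := legal_tail hyl
    rw [hσ0, hσ1, h2] at hyt
    have hy1 : y 1 ≠ p ∧ (y 1 = y 0 ∨ G.Adj (y 0) (y 1)) := by
      have := hyl 0 (by omega)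
      exact ⟨this.2, this.1⟩
    exact hloc (fun s => y (s + 1)) (hX _ hy0 h2 _ hy1.1 hy1.2) hyt h3

theorem edist_of_table {n : ℕ} (G : SimpleGraph (Fin n)) (d : Fin n → Fin n → ℕ)
    (h0 : ∀ i, d i i = 0) (h1 : ∀ i j k, G.Adj i j → d i k ≤ d j k + 1)
    (h2 : ∀ i k, i ≠ k → ∃ j, G.Adj i j ∧ d j k + 1 = d i k) (i k : Fin n) :
    G.edist i k = (d i k : ℕ∞) := by
  have hlow : ∀ {i k : Fin n} (w : G.Walk i k), d i k ≤ w.length := by
    intro i k w
    induction w with
    | nil => rw [h0]; omega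
    | cons hadj w ih =>
      rename_i u v t
      have := h1 _ _ t hadj
      simp only [Walk.length_cons]
      omega
  have hup : ∀ (m : ℕ) (i : Fin n), d i k = m → ∃ w : G.Walk i k, w.length = m := by
    intro m
    induction m with
    | zero =>
      intro i hi
      by_cases hik : i = k
      · subst hik; exact ⟨Walk.nil, rfl⟩
      · obtain ⟨j, -, hj⟩ := h2 i k hik; omega
    | succ m ih =>
      intro i hi
      by_cases hik : i = k
      · subst hik; rw [h0] at hi; omega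
      · obtain ⟨j, hij, hj⟩ := h2 i k hik
        obtain ⟨w, hw⟩ := ih j (by omega)
        exact ⟨Walk.cons hij w, by simp [hw]⟩
  obtain ⟨w, hw⟩ := hup (d i k) i rfl
  refine le_antisymm (hw ▸ w.edist_le) ?_
  obtain ⟨q, hq⟩ := w.reachable.exists_walk_length_eq_edist
  rw [← hq]
  exact_mod_cast hlow q

end Cop

section Final

/-- The graph on `Fin n` with the listed edges. -/
def graphOf {n : ℕ} (L : List (Fin n × Fin n)) : SimpleGraph (Fin n) where
  Adj a b := a ≠ b ∧ ((a, b) ∈ L ∨ (b, a) ∈ L)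
  symm := ⟨fun _ _ h => ⟨h.1.symm, h.2.symm⟩⟩
  loopless := ⟨fun _ h => h.1 rfl⟩

instance {n : ℕ} (L : List (Fin n × Fin n)) : DecidableRel (graphOf L).Adj := fun a b =>
  inferInstanceAs (Decidable (a ≠ b ∧ ((a, b) ∈ L ∨ (b, a) ∈ L)))

/-- The graph `H`: 8 vertices, 11 edges. -/
def H : SimpleGraph (Fin 8) :=
  graphOf [(0, 1), (0, 5), (0, 7), (1, 2), (1, 3), (1, 5), (1, 6), (2, 4), (2, 6), (3, 4), (3, 5)]

/-- The graph `G₀`: `H` with one more vertex `8`, adjacent to `2` and `6`. -/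
def G₀ : SimpleGraph (Fin 9) :=
  graphOf [(0, 1), (0, 5), (0, 7), (1, 2), (1, 3), (1, 5), (1, 6), (2, 4), (2, 6), (3, 4), (3, 5),
    (2, 8), (6, 8)]

instance : DecidableRel H.Adj := by unfold H; infer_instance
instance : DecidableRel G₀.Adj := by unfold G₀; infer_instance

def dtab : Fin 9 → Fin 9 → ℕ :=
  ![![0, 1, 2, 2, 3, 1, 2, 1, 3],
    ![1, 0, 1, 1, 2, 1, 1, 2, 2],
    ![2, 1, 0, 2, 1, 2, 1, 3, 1],
    ![2, 1, 2, 0, 1, 1, 2, 3, 3],
    ![3, 2, 1, 1, 0, 2, 2, 4, 2],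
    ![1, 1, 2, 1, 2, 0, 2, 2, 3],
    ![2, 1, 1, 2, 2, 2, 0, 3, 1],
    ![1, 2, 3, 3, 4, 2, 3, 0, 4],
    ![3, 2, 1, 3, 2, 3, 1, 4, 0]]

theorem edist_G₀ (i k : Fin 9) : G₀.edist i k = (dtab i k : ℕ∞) :=
  edist_of_table G₀ dtab (by decide +kernel) (by decide +kernel) (by decide +kernel) i k

/-- the vertices of `G₀` other than `8` -/
def S₀ : Finset (Fin 9) := {0, 1, 2, 3, 4, 5, 6, 7}

theorem fin_step {n : ℕ} {X Z : Finset (Fin 9)} (p : Fin 9)
    (h : ∀ r < 6, (∃ z ∈ Z, dtab z p = r) →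
      (∀ y ∈ X, ∀ z ∈ Z, dtab y p = r → dtab z p = r → y = z) ∨
      ∃ X' Z' : Finset (Fin 9), Good G₀ S₀ n X' Z' ∧
        (∀ y ∈ X, dtab y p = r → ∀ w, w ≠ p → (w = y ∨ G₀.Adj y w) → w ∈ X') ∧
        (∀ y ∈ Z, dtab y p = r → ∀ w ∈ S₀, w ≠ p → (w = y ∨ G₀.Adj y w) → w ∈ Z')) :
    Good G₀ S₀ (n + 1) X Z := by
  refine good_step p ?_
  rintro r ⟨z, hz, hzr⟩
  rw [edist_G₀] at hzr
  subst hzr
  have hlt : ∀ a b : Fin 9, dtab a b < 6 := by decide +kernel
  have hcast : ∀ y : Fin 9, G₀.edist y p = (dtab z p : ℕ∞) ↔ dtab y p = dtab z p := by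
    intro y
    rw [edist_G₀, Nat.cast_inj]
  rcases h (dtab z p) (hlt _ _) ⟨z, hz, rfl⟩ with h1 | ⟨X', Z', hg, hX, hZ⟩
  · left
    intro y hy w hw h2 h3
    exact h1 y hy w hw ((hcast y).mp h2) ((hcast w).mp h3)
  · right
    refine ⟨X', Z', hg, ?_, ?_⟩
    · intro y hy h2 w hw h3
      exact hX y hy ((hcast y).mp h2) w hw h3
    · intro y hy h2 w hwS hw h3
      exact hZ y hy ((hcast y).mp h2) w hwS hw h3

theorem g0 : Good G₀ S₀ 1 (({0, 2, 6, 7, 8} : Finset (Fin 9)) : Set (Fin 9)) (({0, 7} : Finset (Fin 9)) : Set (Fin 9)) := by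
  refine fin_step (n := 0) 0 ?_
  intro r hr hz
  interval_cases r <;>
  first
  | exact absurd hz (by decide)
  | exact Or.inl (by decide)

theorem g1 : Good G₀ S₀ 1 (({1, 3, 4, 6, 8} : Finset (Fin 9)) : Set (Fin 9)) (({3, 4} : Finset (Fin 9)) : Set (Fin 9)) := by
  refine fin_step (n := 0) 4 ?_
  intro r hr hz
  interval_cases r <;>
  first
  | exact absurd hz (by decide)
  | exact Or.inl (by decide)

theorem g2 : Good G₀ S₀ 1 (({0, 3, 4, 5, 7} : Finset (Fin 9)) : Set (Fin 9)) (({0, 3, 4, 5, 7} : Finset (Fin 9)) : Set (Fin 9)) := by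
  refine fin_step (n := 0) 4 ?_
  intro r hr hz
  interval_cases r <;>
  first
  | exact absurd hz (by decide)
  | exact Or.inl (by decide)

theorem g3 : Good G₀ S₀ 2 (({2, 3, 4, 6, 8} : Finset (Fin 9)) : Set (Fin 9)) (({2, 3, 4} : Finset (Fin 9)) : Set (Fin 9)) := by
  refine fin_step (n := 1) 2 ?_
  intro r hr hz
  interval_cases r <;>
  first
  | exact absurd hz (by decide)
  | exact Or.inl (by decide)
  | exact Or.inr ⟨_, _, Good.mono g1 (by decide), by decide, by decide⟩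

theorem g4 : Good G₀ S₀ 2 (({0, 1, 3, 4, 5} : Finset (Fin 9)) : Set (Fin 9)) (({0, 1, 3, 4, 5} : Finset (Fin 9)) : Set (Fin 9)) := by
  refine fin_step (n := 1) 1 ?_
  intro r hr hz
  interval_cases r <;>
  first
  | exact absurd hz (by decide)
  | exact Or.inl (by decide)
  | exact Or.inr ⟨_, _, Good.mono g2 (by decide), by decide, by decide⟩

theorem g5 : Good G₀ S₀ 3 (({1, 2, 4, 8} : Finset (Fin 9)) : Set (Fin 9)) (({1, 2, 4} : Finset (Fin 9)) : Set (Fin 9)) := by
  refine fin_step (n := 2) 0 ?_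
  intro r hr hz
  interval_cases r <;>
  first
  | exact absurd hz (by decide)
  | exact Or.inl (by decide)
  | exact Or.inr ⟨_, _, Good.mono g3 (by decide), by decide, by decide⟩

theorem g6 : Good G₀ S₀ 4 (({2, 4, 6, 8} : Finset (Fin 9)) : Set (Fin 9)) (({2, 4, 6} : Finset (Fin 9)) : Set (Fin 9)) := by
  refine fin_step (n := 3) 6 ?_
  intro r hr hz
  interval_cases r <;>
  first
  | exact absurd hz (by decide)
  | exact Or.inl (by decide)
  | exact Or.inr ⟨_, _, Good.mono g5 (by decide), by decide, by decide⟩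

theorem g7 : Good G₀ S₀ 5 (({1, 2, 4, 6, 8} : Finset (Fin 9)) : Set (Fin 9)) (({1, 2, 4, 6} : Finset (Fin 9)) : Set (Fin 9)) := by
  refine fin_step (n := 4) 1 ?_
  intro r hr hz
  interval_cases r <;>
  first
  | exact absurd hz (by decide)
  | exact Or.inl (by decide)
  | exact Or.inr ⟨_, _, Good.mono g6 (by decide), by decide, by decide⟩
  | exact Or.inr ⟨_, _, Good.mono g3 (by decide), by decide, by decide⟩

theorem g8 : Good G₀ S₀ 5 (({1, 2, 4, 6} : Finset (Fin 9)) : Set (Fin 9)) (({1, 2, 4, 6} : Finset (Fin 9)) : Set (Fin 9)) := by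
  refine fin_step (n := 4) 1 ?_
  intro r hr hz
  interval_cases r <;>
  first
  | exact absurd hz (by decide)
  | exact Or.inl (by decide)
  | exact Or.inr ⟨_, _, Good.mono g6 (by decide), by decide, by decide⟩

theorem g9 : Good G₀ S₀ 6 (({1, 2, 3, 5, 6} : Finset (Fin 9)) : Set (Fin 9)) (({1, 2, 3, 5, 6} : Finset (Fin 9)) : Set (Fin 9)) := by
  refine fin_step (n := 5) 8 ?_
  intro r hr hz
  interval_cases r <;>
  first
  | exact absurd hz (by decide)
  | exact Or.inl (by decide)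
  | exact Or.inr ⟨_, _, Good.mono g8 (by decide), by decide, by decide⟩
  | exact Or.inr ⟨_, _, Good.mono g4 (by decide), by decide, by decide⟩

theorem g10 : Good G₀ S₀ 6 (({1, 2, 3, 5, 6, 7} : Finset (Fin 9)) : Set (Fin 9)) (({1, 2, 3, 5, 6, 7} : Finset (Fin 9)) : Set (Fin 9)) := by
  refine fin_step (n := 5) 8 ?_
  intro r hr hz
  interval_cases r <;>
  first
  | exact absurd hz (by decide)
  | exact Or.inl (by decide)
  | exact Or.inr ⟨_, _, Good.mono g8 (by decide), by decide, by decide⟩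
  | exact Or.inr ⟨_, _, Good.mono g4 (by decide), by decide, by decide⟩

theorem g11 : Good G₀ S₀ 7 (({0, 1, 2, 4, 5, 6} : Finset (Fin 9)) : Set (Fin 9)) (({0, 1, 2, 4, 5, 6} : Finset (Fin 9)) : Set (Fin 9)) := by
  refine fin_step (n := 6) 0 ?_
  intro r hr hz
  interval_cases r <;>
  first
  | exact absurd hz (by decide)
  | exact Or.inl (by decide)
  | exact Or.inr ⟨_, _, Good.mono g9 (by decide), by decide, by decide⟩
  | exact Or.inr ⟨_, _, Good.mono g7 (by decide), by decide, by decide⟩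

theorem g12 : Good G₀ S₀ 7 (({0, 1, 2, 4, 5, 6, 7, 8} : Finset (Fin 9)) : Set (Fin 9)) (({0, 1, 2, 4, 5, 6, 7} : Finset (Fin 9)) : Set (Fin 9)) := by
  refine fin_step (n := 6) 0 ?_
  intro r hr hz
  interval_cases r <;>
  first
  | exact absurd hz (by decide)
  | exact Or.inl (by decide)
  | exact Or.inr ⟨_, _, Good.mono g10 (by decide), by decide, by decide⟩
  | exact Or.inr ⟨_, _, Good.mono g7 (by decide), by decide, by decide⟩
  | exact Or.inr ⟨_, _, Good.mono g3 (by decide), by decide, by decide⟩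

theorem gStart : Good G₀ S₀ 8 ((Finset.univ : Finset (Fin 9)) : Set (Fin 9)) ((S₀ : Finset (Fin 9)) : Set (Fin 9)) := by
  refine fin_step (n := 7) 3 ?_
  intro r hr hz
  interval_cases r <;>
  first
  | exact absurd hz (by decide)
  | exact Or.inl (by decide)
  | exact Or.inr ⟨_, _, Good.mono g11 (by decide), by decide, by decide⟩
  | exact Or.inr ⟨_, _, Good.mono g12 (by decide), by decide, by decide⟩
  | exact Or.inr ⟨_, _, Good.mono g0 (by decide), by decide, by decide⟩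


theorem copy_ne (f : Copy H G₀) (i : Fin 8) : f i ≠ 8 := by
  have hinj : Function.Injective f := f.injective
  have hadj : ∀ {a b : Fin 8}, H.Adj a b → G₀.Adj (f a) (f b) := fun h => f.toHom.map_adj h
  -- the vertex `1` of degree 5
  have h1 : f 1 = 1 := by
    have hsub : (Finset.image f {0, 2, 3, 5, 6}) ⊆ Finset.univ.filter (G₀.Adj (f 1)) := by
      intro v hv
      rw [Finset.mem_image] at hv
      obtain ⟨a, ha, rfl⟩ := hv
      rw [Finset.mem_filter]
      refine ⟨Finset.mem_univ _, hadj ?_⟩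
      revert ha
      revert a
      decide
    have hcard := Finset.card_le_card hsub
    rw [Finset.card_image_of_injective _ hinj] at hcard
    have hdeg : ∀ v : Fin 9, 5 ≤ (Finset.univ.filter (G₀.Adj v)).card → v = 1 := by
      decide +kernel
    exact hdeg _ (le_trans (by decide) hcard)
  have key : ∀ a5 a0 a3 : Fin 9, G₀.Adj 1 a5 → G₀.Adj 1 a0 → G₀.Adj 1 a3 → G₀.Adj a5 a0 →
      G₀.Adj a5 a3 → a0 ≠ a3 → (a0 = 0 ∨ a0 = 3) ∧ (a3 = 0 ∨ a3 = 3) := by decide +kernel
  have h15 : G₀.Adj 1 (f 5) := by rw [← h1]; exact hadj (by decide)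
  have h10 : G₀.Adj 1 (f 0) := by rw [← h1]; exact hadj (by decide)
  have h13 : G₀.Adj 1 (f 3) := by rw [← h1]; exact hadj (by decide)
  have h12 : G₀.Adj 1 (f 2) := by rw [← h1]; exact hadj (by decide)
  have h16 : G₀.Adj 1 (f 6) := by rw [← h1]; exact hadj (by decide)
  have h50 : G₀.Adj (f 5) (f 0) := hadj (by decide)
  have h53 : G₀.Adj (f 5) (f 3) := hadj (by decide)
  have h34 : G₀.Adj (f 3) (f 4) := hadj (by decide)
  have h07 : G₀.Adj (f 0) (f 7) := hadj (by decide)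
  obtain ⟨h0, h3⟩ := key _ _ _ h15 h10 h13 h50 h53 (fun h => absurd (hinj h) (by decide))
  have hno1 : ¬ G₀.Adj 1 8 := by decide
  have hno0 : ¬ G₀.Adj 0 8 := by decide
  have hno3 : ¬ G₀.Adj 3 8 := by decide
  intro hi
  fin_cases i
  · exact hno1 (hi ▸ h10)
  · exact absurd (h1.symm.trans hi) (by decide)
  · exact hno1 (hi ▸ h12)
  · exact hno1 (hi ▸ h13)
  · have h4 : f 4 = 8 := hi
    rw [h4] at h34
    rcases h3 with h | h
    · rw [h] at h34; exact hno0 h34
    · rw [h] at h34; exact hno3 h34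
  · exact hno1 (hi ▸ h15)
  · exact hno1 (hi ▸ h16)
  · have h7 : f 7 = 8 := hi
    rw [h7] at h07
    rcases h0 with h | h
    · rw [h] at h07; exact hno0 h07
    · rw [h] at h07; exact hno3 h07

/-- There is a graph `H` with 8 vertices such that every graph containing `H` as a subgraph is
non-locatable, and a graph `G₀` with 9 vertices containing `H` as an induced subgraph, such that
one strategy of the cop locates, within a bounded number of rounds, every robber who stays in some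
copy of `H` in `G₀` (induced or not); in particular the robber has no winning strategy on `G₀`
that stays in a copy of `H`. -/
theorem result : ∃ (H : SimpleGraph (Fin 8)) (G₀ : SimpleGraph (Fin 9)),
    (∀ (V : Type u) (G : SimpleGraph V), H.IsContained G → ¬ Locatable G) ∧
    H.IsIndContained G₀ ∧
    (∃ (σ : List ℕ∞ → Fin 9) (T : ℕ), ∀ f : Copy H G₀, ∀ x : ℕ → Fin 9,
      (∀ t, x t ∈ Set.range f) → Legal G₀ σ x T → ∃ t ≤ T, Located G₀ σ x t) ∧
    ∀ f : Copy H G₀, ¬ WinsWithin G₀ (Set.range f) := by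
  have hmain : ∃ (σ : List ℕ∞ → Fin 9) (T : ℕ), ∀ f : Copy H G₀, ∀ x : ℕ → Fin 9,
      (∀ t, x t ∈ Set.range f) → Legal G₀ σ x T → ∃ t ≤ T, Located G₀ σ x t := by
    obtain ⟨σ, hσ⟩ := gStart
    refine ⟨σ, 8, fun f x hx hl => ?_⟩
    have hS : ∀ t, x t ∈ (S₀ : Set (Fin 9)) := by
      intro t
      obtain ⟨i, hi⟩ := hx t
      have h8 : x t ≠ 8 := by rw [← hi]; exact copy_ne f i
      have : ∀ v : Fin 9, v ≠ 8 → v ∈ S₀ := by decide
      exact this _ h8
    obtain ⟨t, ht, h⟩ := hσ x (hS 0) hS hl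
    exact ⟨t, ht, fun y hy hans => h y (by simp) hy hans⟩
  refine ⟨H, G₀, ?_, ?_, hmain, ?_⟩
  · rintro V G ⟨f⟩
    refine forced (fun i => if h : i < 8 then f ⟨i, h⟩ else f 0) ?_ ?_
    · intro i hi j hj h
      simp only [hi, hj, dif_pos] at h
      exact congrArg Fin.val (f.injective h)
    · intro e he
      have hall : ∀ e ∈ EH, ∃ (h1 : e.1 < 8) (h2 : e.2 < 8), H.Adj ⟨e.1, h1⟩ ⟨e.2, h2⟩ := by
        decide
      obtain ⟨h1, h2, h3⟩ := hall e he
      simp only [h1, h2, dif_pos]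
      exact f.toHom.map_adj h3
  · refine ⟨⟨⟨Fin.castSucc, Fin.castSucc_injective 8⟩, ?_⟩⟩
    intro a b
    revert a b
    decide +kernel
  · intro f hwin
    obtain ⟨σ, T, hσ⟩ := hmain
    obtain ⟨x, hx, hl, hn⟩ := hwin σ
    obtain ⟨t, -, ht⟩ := hσ f x hx (hl T)
    exact hn t ht

end Final

end Pool.Agent.Results.MP_03a3ac_co.RobberMustLeave
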